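import Pool.Agent.H17RL.Shadow
import Pool.Agent.H17RL.Inv

/-!
# A group of piecewise continuous transformations of the circle that is stably realizable but not
# realizable

`S = ℝ/ℤ`; `PCh` is the group of all bijections of `S` that are continuous outside a finite set, and
`PC` is its quotient by the finitely supported permutations.

There is a subgroup `Γ` of `PC` which can be lifted to a group of permutations of `S ⊔ {two points}`,
but not to a group of permutations of `S`.

Construction. We cut `S` into two circles `S₁`, `S₂`, both identified with the projective line. The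
group `Γ` is generated by two groups `A`, `B` of rotations and by an involution `s`, which is
`x ↦ -x` on both circles. The rotations in `A` act on `S₁` and `S₂` by the matrices
`[c, -d; d, c]` (`c`, `d` integers). The rotations in `B` act on `S₂` in the same way, but conjugated by
`x ↦ λ x` with a transcendental number `λ`; and on `S₁` they rotate the two half circles cut out by `0`
and `∞`, which are exchanged by `s`. So `A` requires that `s` has two fixed points on `S₁`, and `B`
requires that `s` has no fixed points on `S₁`.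

* `Γ` is not realizable: if two commuting permutations `τ`, `γ` of a set differ at finitely many points
  from two commuting permutations `t`, `g` which generate a freely acting `ℤ²`, then `(τ, γ)` is conjugate
  to `(t, g)` by a unique permutation with finite support. So every lift of `s` would have as many fixed
  points as the lift given by `A` (four), and as many as the one given by `B` (two).
* With two additional points, which are exchanged by `s` and fixed by the rotations in `A`, the two
  lifts of `s` become conjugate. The generated group has no element `≠ 1` of finite support, since on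
  `S₂` it acts as a free product with amalgamation: the products of elements of `A` and `B` have
  entries which are polynomials in `λ` with computable leading coefficients.
-/

set_option autoImplicit false

namespace Pool.Agent.Results.MP_e3ce59_an.TwoExtraPoints

open Equiv Set Pool.Agent.H17RL

/-- The circle `ℝ/ℤ`. -/
abbrev S : Type := AddCircle (1 : ℝ)

/-- The group of the bijections of the circle which are continuous outside a finite set. -/
def PCh : Subgroup (Perm S) where
  carrier := {f | {y | ¬ ContinuousAt f y}.Finite}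
  mul_mem' := fun {f g} hf hg => nc_comp (f := g) (g := f) hg hf g.injective
  one_mem' := PE.refl.1
  inv_mem' := fun {_} hf => inv_nc hf

/-- The permutations with finite support. -/
def FinSupp (Y : Type) : Subgroup (Perm Y) where
  carrier := {f | {y | f y ≠ y}.Finite}
  mul_mem' := fun {f g} hf hg => by
    have h := Near.mul (f := f) (g := 1) (f' := g) (g' := 1) hf hg
    rw [mul_one] at h
    exact h
  one_mem' := by simp
  inv_mem' := fun {f} hf => by
    have h := Near.inv (f := f) (g := 1) hf
    rw [inv_one] at h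
    exact h

instance : (FinSupp S).Normal where
  conj_mem := by
    intro f hf g
    have h0 : Near g g := by unfold Near; simp
    have h := (h0.mul (show Near f 1 from hf)).mul h0.inv
    rw [mul_one, mul_inv_cancel] at h
    exact h

/-- `PC(S)`: the quotient of the group `PCh` by the finitely supported permutations. -/
abbrev PC : Type := PCh ⧸ (FinSupp S).subgroupOf PCh

/-- The projection `π`. -/
def proj : PCh →* PC := QuotientGroup.mk' _

/-- The subgroup `Γ` of `PC(S)` is realizable: `π` maps a subgroup `Λ` of `PCh` bijectively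
to `Γ`. -/
def Realizable (Γ : Subgroup PC) : Prop := ∃ Λ : Subgroup PCh, BijOn proj Λ Γ

/-- The permutation `f` of `S ⊔ X` agrees on `S` with `h`, and on `X` with the identity, up to
finitely many points. -/
def Agrees {X : Type} (f : Perm (S ⊕ X)) (h : PCh) : Prop :=
  {y : S | f (Sum.inl y) ≠ Sum.inl ((h : Perm S) y)}.Finite ∧
    {x : X | f (Sum.inr x) ≠ Sum.inr x}.Finite

theorem Agrees.mul {X : Type} {f f' : Perm (S ⊕ X)} {h h' : PCh} (hf : Agrees f h)
    (hf' : Agrees f' h') : Agrees (f * f') (h * h') := by
  constructor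
  · have h1 := hf.1.preimage (f := (h' : Perm S)) ((h' : Perm S).injective.injOn)
    refine (hf'.1.union h1).subset ?_
    intro y hy
    by_contra hcon
    simp only [mem_union, mem_ofPred_eq, mem_preimage, not_or, not_not] at hcon
    apply hy
    change f (f' (Sum.inl y)) = Sum.inl ((h : Perm S) ((h' : Perm S) y))
    rw [hcon.1, hcon.2]
  · refine (hf.2.union hf'.2).subset ?_
    intro x hx
    by_contra hcon
    simp only [mem_union, mem_ofPred_eq, not_or, not_not] at hcon
    apply hx
    change f (f' (Sum.inr x)) = Sum.inr x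
    rw [hcon.2, hcon.1]

theorem Agrees.inv {X : Type} {f : Perm (S ⊕ X)} {h : PCh} (hf : Agrees f h) :
    Agrees f⁻¹ h⁻¹ := by
  constructor
  · refine (hf.1.image (h : Perm S)).subset ?_
    intro y hy
    refine ⟨(h : Perm S)⁻¹ y, ?_, apply_inv _ _⟩
    intro hc
    apply hy
    rw [apply_inv] at hc
    change f⁻¹ (Sum.inl y) = Sum.inl ((h : Perm S)⁻¹ y)
    rw [← hc, Pool.Agent.H17RL.inv_apply]
  · refine hf.2.subset ?_
    intro x hx hc
    apply hx
    calc f⁻¹ (Sum.inr x) = f⁻¹ (f (Sum.inr x)) := by rw [hc]
      _ = Sum.inr x := Pool.Agent.H17RL.inv_apply _ _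

theorem Agrees.one {X : Type} : Agrees (1 : Perm (S ⊕ X)) 1 := by
  constructor <;> simp

/-- `h` is determined up to a finite set. -/
theorem Agrees.near {X : Type} {f : Perm (S ⊕ X)} {h h' : PCh} (h1 : Agrees f h)
    (h2 : Agrees f h') : Near (h : Perm S) (h' : Perm S) := by
  refine (h1.1.union h2.1).subset ?_
  intro y hy
  by_contra hcon
  simp only [mem_union, mem_ofPred_eq, not_or, not_not] at hcon
  apply hy
  have := hcon.1.symm.trans hcon.2
  exact Sum.inl.inj this

theorem proj_eq {h h' : PCh} : proj h = proj h' ↔ Near (h : Perm S) (h' : Perm S) := by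
  unfold proj
  rw [QuotientGroup.mk'_eq_mk']
  constructor
  · rintro ⟨z, hz, rfl⟩
    have h1 : Near (z : Perm S) 1 := hz
    have h0 : Near (h : Perm S) (h : Perm S) := by unfold Near; simp
    have := h0.mul h1
    rw [mul_one] at this
    exact this.symm
  · intro hn
    refine ⟨h⁻¹ * h', ?_, by group⟩
    have h0 : Near (h : Perm S)⁻¹ (h : Perm S)⁻¹ := by unfold Near; simp
    have := h0.mul hn.symm
    rw [inv_mul_cancel] at this
    exact this

/-- The group of the bijections of `S ⊔ X` that fix all but finitely many points of `X` and agree on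
`S`, after discarding finitely many points, with an element of `PCh`. -/
def PChX (X : Type) : Subgroup (Perm (S ⊕ X)) where
  carrier := {f | ∃ h : PCh, Agrees f h}
  mul_mem' := fun {_ _} ⟨h, hf⟩ ⟨h', hf'⟩ => ⟨h * h', hf.mul hf'⟩
  one_mem' := ⟨1, Agrees.one⟩
  inv_mem' := fun {_} ⟨h, hf⟩ => ⟨h⁻¹, hf.inv⟩

/-- The homomorphism `p_X`: it maps `f` to the class of the elements of `PCh` which agree with `f` on
`S` up to finitely many points. -/
noncomputable def projX (X : Type) : PChX X →* PC :=
  MonoidHom.mk' (fun f => proj f.2.choose) (by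
    intro f g
    rw [← map_mul, proj_eq]
    exact Agrees.near (f * g).2.choose_spec (f.2.choose_spec.mul g.2.choose_spec))

theorem projX_eq {X : Type} (f : PChX X) {h : PCh} (hf : Agrees (f : Perm (S ⊕ X)) h) :
    projX X f = proj h := by
  change proj f.2.choose = proj h
  rw [proj_eq]
  exact Agrees.near f.2.choose_spec hf

/-- The subgroup `Γ` of `PC(S)` is stably realizable: for some set `X` the homomorphism `p_X` maps a
subgroup of `PChX X` bijectively to `Γ`. -/
def StablyRealizable (Γ : Subgroup PC) : Prop :=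
  ∃ (X : Type) (Λ : Subgroup (PChX X)), BijOn (projX X) Λ Γ

/-- elements of `PCh` -/
noncomputable def a1 (u : ℂˣ) : PCh := ⟨A1 u, (cS_pe (A0_pe u)).1⟩

/-- elements of `PCh` -/
noncomputable def b1 (u : ℂˣ) : PCh := ⟨B1 u, (cS_pe (B0_pe u)).1⟩

/-- elements of `PCh` -/
noncomputable def sA : PCh := ⟨sA1, (cS_pe sA0_pe).1⟩

theorem agrees_a (u : ℂˣ) : Agrees (A2 u) (a1 u) := by
  constructor
  · convert Set.finite_empty (α := S)
    ext y
    simp only [mem_ofPred_eq, mem_empty_iff_false, iff_false, not_not]
    rfl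
  · exact Set.toFinite _

theorem agrees_s : Agrees s2 sA := by
  constructor
  · convert Set.finite_empty (α := S)
    ext y
    simp only [mem_ofPred_eq, mem_empty_iff_false, iff_false, not_not]
    rfl
  · exact Set.toFinite _

theorem agrees_kap : Agrees kap 1 := by
  constructor
  · refine ((Set.finite_singleton q1).insert q0).subset ?_
    intro y hy
    by_contra hc
    rw [mem_insert_iff, mem_singleton_iff, not_or] at hc
    exact hy (kap_ne hc.1 hc.2)
  · exact Set.toFinite _

theorem agrees_b (u : ℂˣ) : Agrees (B2 u) (b1 u) := by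
  have h1 : Agrees (eS (B1 u)) (b1 u) := by
    constructor
    · convert Set.finite_empty (α := S)
      ext y
      simp only [mem_ofPred_eq, mem_empty_iff_false, iff_false, not_not]
      rfl
    · exact Set.toFinite _
  have h2 := (agrees_kap.mul h1).mul agrees_kap.inv
  rw [one_mul, inv_one, mul_one] at h2
  exact h2

theorem K_sub : K ⊆ (PChX Bool : Set (Perm T)) := by
  rintro x (rfl | ⟨b, z, _, rfl⟩)
  · exact ⟨_, agrees_s⟩
  · cases b
    · exact ⟨_, agrees_b _⟩
    · exact ⟨_, agrees_a _⟩

/-- the group on `S ⊔ {two points}` -/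
def Lam : Subgroup (PChX Bool) := (Subgroup.closure K).subgroupOf (PChX Bool)

/-- the example -/
noncomputable def Gam : Subgroup PC := Lam.map (projX Bool)

theorem stab : StablyRealizable Gam := by
  refine ⟨Bool, Lam, ?_, ?_, ?_⟩
  · intro x hx
    exact ⟨x, hx, rfl⟩
  · intro x hx y hy hxy
    have h1 : projX Bool (x⁻¹ * y) = 1 := by
      rw [map_mul, map_inv, hxy, inv_mul_cancel]
    have h2 : x⁻¹ * y ∈ Lam := Lam.mul_mem (Lam.inv_mem hx) hy
    have h3 : Near (((x⁻¹ * y).2.choose : PCh) : Perm S) ((1 : PCh) : Perm S) := by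
      rw [← proj_eq, map_one]
      exact h1
    have h4 := (x⁻¹ * y).2.choose_spec.1
    have h5 : {z : S | ((x⁻¹ * y : PChX Bool) : Perm T) (Sum.inl z) ≠ Sum.inl z}.Finite := by
      refine (h3.union h4).subset ?_
      intro z hz
      by_contra hcon
      simp only [mem_union, mem_ofPred_eq, not_or, not_not] at hcon
      apply hz
      rw [hcon.2, hcon.1]
      rfl
    have h6 := trivial_of_fin (x := ((x⁻¹ * y : PChX Bool) : Perm T)) h2 h5
    have h7 : x⁻¹ * y = 1 := Subtype.ext h6
    exact inv_mul_eq_one.1 h7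
  · intro x hx
    exact hx

theorem mem_a {z : GaussianInt} (hz : z ≠ 0) : proj (a1 (U z)) ∈ Gam := by
  refine ⟨⟨A2 (U z), _, agrees_a _⟩, ?_, projX_eq _ (agrees_a _)⟩
  exact Subgroup.subset_closure (Or.inr ⟨true, z, hz, rfl⟩)

theorem mem_b {z : GaussianInt} (hz : z ≠ 0) : proj (b1 (U z)) ∈ Gam := by
  refine ⟨⟨B2 (U z), _, agrees_b _⟩, ?_, projX_eq _ (agrees_b _)⟩
  exact Subgroup.subset_closure (Or.inr ⟨false, z, hz, rfl⟩)

theorem mem_s : proj sA ∈ Gam := by
  refine ⟨⟨s2, _, agrees_s⟩, ?_, projX_eq _ agrees_s⟩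
  exact Subgroup.subset_closure (Or.inl rfl)

theorem real_star (z : GaussianInt) : ((cj (U z) * U z : ℂˣ) : ℂ).im = 0 := by
  rw [Units.val_mul, cj_val, mul_comm, Complex.mul_conj, Complex.ofReal_im]

theorem not_real : ¬ Realizable Gam := by
  rintro ⟨Λ, hmaps, hinj, hsurj⟩
  -- the lifts
  obtain ⟨τ, hτ, eτ⟩ := hsurj (mem_a z1_ne)
  obtain ⟨γ, hγ, eγ⟩ := hsurj (mem_a z2_ne)
  obtain ⟨τ', hτ', eτ'⟩ := hsurj (mem_b z1_ne)
  obtain ⟨γ', hγ', eγ'⟩ := hsurj (mem_b z2_ne)
  obtain ⟨σ, hσ, eσ⟩ := hsurj mem_s
  have nτ := proj_eq.1 eτ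
  have nγ := proj_eq.1 eγ
  have nτ' := proj_eq.1 eτ'
  have nγ' := proj_eq.1 eγ'
  have nσ := proj_eq.1 eσ
  -- the relations
  have c1 : τ * γ = γ * τ := by
    apply hinj (Λ.mul_mem hτ hγ) (Λ.mul_mem hγ hτ)
    rw [map_mul, map_mul, eτ, eγ, ← map_mul, ← map_mul]
    congr 1
    apply Subtype.ext
    exact free_A.comm
  have c2 : τ' * γ' = γ' * τ' := by
    apply hinj (Λ.mul_mem hτ' hγ') (Λ.mul_mem hγ' hτ')
    rw [map_mul, map_mul, eτ', eγ', ← map_mul, ← map_mul]
    congr 1
    apply Subtype.ext
    exact free_B.comm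
  have hA : sA1 * A1 (U z1) * sA1⁻¹ = (A1 (U z1))⁻¹ := by
    rw [sA1_A1, mul_inv_cancel_right, eq_inv_iff_mul_eq_one, ← map_mul]
    exact A1_real (real_star z1)
  have hB : sB1 * B1 (U z1) * sB1⁻¹ = (B1 (U z1))⁻¹ := by
    rw [sB1_B1, mul_inv_cancel_right, eq_inv_iff_mul_eq_one, ← map_mul]
    exact B1_real (real_star z1)
  have d1 : σ * τ * σ⁻¹ = τ⁻¹ := by
    apply hinj (Λ.mul_mem (Λ.mul_mem hσ hτ) (Λ.inv_mem hσ)) (Λ.inv_mem hτ)
    rw [map_mul, map_mul, map_inv, map_inv, eτ, eσ, ← map_mul, ← map_inv, ← map_mul, ← map_inv]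
    congr 1
    apply Subtype.ext
    exact hA
  have d2 : σ * τ' * σ⁻¹ = τ'⁻¹ := by
    apply hinj (Λ.mul_mem (Λ.mul_mem hσ hτ') (Λ.inv_mem hσ)) (Λ.inv_mem hτ')
    rw [map_mul, map_mul, map_inv, map_inv, eτ', eσ, ← map_mul, ← map_inv, ← map_mul, ← map_inv]
    rw [proj_eq]
    have h1 : Near (sA1 * B1 (U z1) * sA1⁻¹) (sB1 * B1 (U z1) * sB1⁻¹) :=
      (near_s.mul (show Near (B1 (U z1)) (B1 (U z1)) by unfold Near; simp)).mul near_s.inv
    rw [hB] at h1
    exact h1
  obtain ⟨φ, hφ⟩ := rigid_dihedral free_A nτ nγ (congrArg Subtype.val c1) nσ hA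
    (congrArg Subtype.val d1)
  obtain ⟨φ', hφ'⟩ := rigid_dihedral free_B nτ' nγ' (congrArg Subtype.val c2)
    (nσ.trans near_s) hB (congrArg Subtype.val d2)
  exact not_conj φ φ' (hφ.symm.trans hφ')

/-- There is a subgroup of `PC(S)` which is stably realizable but not realizable. -/
theorem result : ∃ Γ : Subgroup PC, StablyRealizable Γ ∧ ¬ Realizable Γ := ⟨Gam, stab, not_real⟩

end Pool.Agent.Results.MP_e3ce59_an.TwoExtraPoints
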